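import Pool.Agent.H375R3.Dim.Main

set_option autoImplicit false
open scoped Pointwise

namespace Pool.Agent.Results.MP_dd2a7c_co.DimensionFree

/-- The dimension bound in the polynomial Freiman-Ruzsa conjecture is free. If `|A+A| ≤ K|A|` and
`A` is covered by at most `M` translates of a centred convex coset progression `ψ(ℤ^d ∩ B) + H` of
arbitrary dimension `d`, proper on `2B`, with volume at most `M|A|`, then `A` is covered by
`(2KM)^3300` translates of a centred convex coset progression of dimension at most `500 log(2KM)`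
and volume at most `|A|`. -/
theorem result {Γ : Type*} [AddCommGroup Γ] [DecidableEq Γ] (K M : ℝ) (A : Finset Γ)
    (hA : A.Nonempty) (hK : ((A + A).card : ℝ) ≤ K * A.card)
    (d : ℕ) (B : Set (Fin d → ℝ)) (hconv : Convex ℝ B) (hcomp : IsCompact B)
    (hint : (interior B).Nonempty) (hsymm : ∀ x ∈ B, -x ∈ B)
    (ψ : (Fin d → ℤ) →+ Γ) (H : AddSubgroup Γ) (hH : Finite H)
    (hproper : ∀ x y : Fin d → ℤ, (fun i => (x i : ℝ)) ∈ (2 : ℝ) • B →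
      (fun i => (y i : ℝ)) ∈ (2 : ℝ) • B → ψ x - ψ y ∈ H → x = y)
    (hvol : ({x : Fin d → ℤ | (fun i => (x i : ℝ)) ∈ B}.ncard : ℝ) * Nat.card H ≤ M * A.card)
    (T₀ : Finset Γ) (hT₀ : (T₀.card : ℝ) ≤ M)
    (hcov : ∀ a ∈ A, ∃ t ∈ T₀, ∃ x : Fin d → ℤ, (fun i => (x i : ℝ)) ∈ B ∧
      ∃ h ∈ H, a = t + ψ x + h) :
    ∃ (m : ℕ) (B' : Set (Fin m → ℝ)) (φ : (Fin m → ℤ) →+ Γ) (H' : AddSubgroup Γ) (T : Finset Γ),
      (m : ℝ) ≤ 500 * Real.log (2 * K * M) ∧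
      Convex ℝ B' ∧ IsCompact B' ∧ (interior B').Nonempty ∧ (∀ x ∈ B', -x ∈ B') ∧
      Finite H' ∧
      {x : Fin m → ℤ | (fun i => (x i : ℝ)) ∈ B'}.ncard * Nat.card H' ≤ A.card ∧
      (T.card : ℝ) ≤ (2 * K * M) ^ 3300 ∧
      ∀ a ∈ A, ∃ t ∈ T, ∃ x : Fin m → ℤ, (fun i => (x i : ℝ)) ∈ B' ∧
        ∃ h ∈ H', a = t + φ x + h := by
  obtain ⟨m, B', φ, H', T, hm, hB', hH', hv, hT, hc⟩ :=
    H375.Main.main K M A hA hK d B ⟨hconv, hcomp, hint, hsymm⟩ ψ H hH hproper T₀ hT₀ hvol hcov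
  exact ⟨m, B', φ, H', T, hm, hB'.1, hB'.2.1, hB'.2.2.1, hB'.2.2.2, hH', hv, hT, hc⟩

end Pool.Agent.Results.MP_dd2a7c_co.DimensionFree
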