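import Pool.Agent.H375R3.Tr.Final

set_option autoImplicit false
open scoped Pointwise

namespace Pool.Agent.Results.MP_dd2a7c_co.PolynomialCovering

/-- Polynomially many translates. If `|A+A| ≤ K|A|` in an abelian group, then for every integer
`s ≥ 1` the set `A` is covered by `(2K)^(40000 s)` translates of a proper centred convex coset
progression of dimension at most `100000 s log(2K)` and volume at most
`exp(60000 s (log 2K)^(1+1/s)) |A|`. -/
theorem result {Γ : Type*} [AddCommGroup Γ] [DecidableEq Γ] (K : ℝ) (A : Finset Γ)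
    (hA : A.Nonempty) (hK : ((A + A).card : ℝ) ≤ K * (A.card : ℝ)) (s : ℕ) (hs : 1 ≤ s) :
    ∃ (d : ℕ) (B : Set (Fin d → ℝ)) (ψ : (Fin d → ℤ) →+ Γ) (H : AddSubgroup Γ) (T : Finset Γ),
      (d : ℝ) ≤ 100000 * s * Real.log (2 * K) ∧
      Convex ℝ B ∧ IsCompact B ∧ (interior B).Nonempty ∧ (∀ x ∈ B, -x ∈ B) ∧
      Finite H ∧
      (∀ x y : Fin d → ℤ, (fun i => (x i : ℝ)) ∈ B → (fun i => (y i : ℝ)) ∈ B →
        ψ x - ψ y ∈ H → x = y) ∧
      ({x : Fin d → ℤ | (fun i => (x i : ℝ)) ∈ B}.ncard : ℝ) * Nat.card H ≤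
        Real.exp (60000 * s * Real.log (2 * K) ^ (1 + 1 / (s : ℝ))) * A.card ∧
      (T.card : ℝ) ≤ (2 * K) ^ (40000 * s) ∧
      ∀ a ∈ A, ∃ t ∈ T, ∃ x : Fin d → ℤ, (fun i => (x i : ℝ)) ∈ B ∧
        ∃ h ∈ H, a = t + ψ x + h := by
  obtain ⟨d, B, ψ, H, T, hd, hB, hH, hpr, hvol, hT, hcov⟩ := H375.Tr.final hA hK hs
  have hApos : (0 : ℝ) < A.card := by exact_mod_cast hA.card_pos
  have hK1 : 1 ≤ K := by
    have h1 : (A.card : ℝ) ≤ (A + A).card := by
      exact_mod_cast Finset.card_le_card_add_right hA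
    nlinarith
  have hlog : 0 < Real.log (2 * K) := Real.log_pos (by linarith)
  refine ⟨d, B, ψ, H, T, hd, hB.1, hB.2.1, hB.2.2.1, hB.2.2.2, hH, hpr, ?_, hT, hcov⟩
  rw [Real.rpow_add hlog, Real.rpow_one]
  exact hvol

end Pool.Agent.Results.MP_dd2a7c_co.PolynomialCovering
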