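import Pool.Agent.H375R3.Tor.Base

set_option autoImplicit false
open scoped Pointwise

universe u

namespace Pool.Agent.Results.MP_dd2a7c_co.TwoPowerTorsion

/-- Marton's conjecture in groups of exponent dividing `2^k` with an exponent linear in `k`
(that is, logarithmic in the torsion `m = 2^k`), and the matching lower bound: for every `k` an
exponent linear in `k` is needed. -/
theorem result (k : ℕ) :
    (∀ (Γ : Type u) [AddCommGroup Γ] [DecidableEq Γ], (∀ x : Γ, (2 ^ k) • x = 0) →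
      ∀ (K : ℝ) (A : Finset Γ), A.Nonempty → ((A + A).card : ℝ) ≤ K * (A.card : ℝ) →
        ∃ (H : AddSubgroup Γ) (T : Finset Γ), Finite H ∧ Nat.card H ≤ A.card ∧
          (T.card : ℝ) ≤ (2 * K) ^ (333 * (k + 1)) ∧ ∀ a ∈ A, ∃ t ∈ T, a - t ∈ H) ∧
    (∃ A : Finset (ZMod (2 ^ k)), A.Nonempty ∧ (A + A).card ≤ 2 * A.card ∧
      ∀ (H : AddSubgroup (ZMod (2 ^ k))) (T : Finset (ZMod (2 ^ k))), Nat.card H ≤ A.card →
        (∀ a ∈ A, ∃ t ∈ T, a - t ∈ H) → 2 ^ (k / 2) ≤ T.card) :=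
  ⟨fun _ _ _ htor K A hA hK => H375.Tor.upper k htor K A hA hK, H375.Tor.lower k⟩

end Pool.Agent.Results.MP_dd2a7c_co.TwoPowerTorsion
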